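import Pool.Agent.H64.Psi5

set_option autoImplicit false

namespace Pool.Agent.Results.MP_e01960_al.Counter

open MvPolynomial

/-- Over the complex numbers in seven variables there is a principal symmetric ideal whose square
is principal symmetric, while no generator of it (in the orbit sense) is a scalar eigenvector of a
transposition; hence none is scalar invariant under a symmetric subgroup. -/
theorem result :
    ∃ I : Ideal (MvPolynomial (Fin 7) ℂ),
      (∃ (f : MvPolynomial (Fin 7) ℂ) (n : ℕ), f.IsHomogeneous n ∧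
        I = Ideal.span (Set.range fun σ : Equiv.Perm (Fin 7) => rename σ f)) ∧
      (∃ (w : MvPolynomial (Fin 7) ℂ) (n : ℕ), w.IsHomogeneous n ∧
        I ^ 2 = Ideal.span (Set.range fun σ : Equiv.Perm (Fin 7) => rename σ w)) ∧
      ∀ f : MvPolynomial (Fin 7) ℂ,
        I = Ideal.span (Set.range fun σ : Equiv.Perm (Fin 7) => rename σ f) →
          (∀ i j : Fin 7, i ≠ j → ∀ c : ℂ, rename (Equiv.swap i j) f ≠ c • f) ∧
          ∀ A : Finset (Fin 7), 2 ≤ A.card →
            ¬ ∀ σ : Equiv.Perm (Fin 7), (∀ x, x ∉ A → σ x = x) → ∃ c : ℂ, rename σ f = c • f := by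
  obtain ⟨D⟩ := H64.Psi.exists_data
  refine ⟨D.J, ⟨D.f, D.N, D.hom_f.isHomogeneous, D.J_eq⟩,
    ⟨D.w, D.N + D.N, D.hom_w.isHomogeneous, D.J_sq⟩, fun f hf => ⟨?_, ?_⟩⟩
  · intro i j hij c
    exact D.no_eigen f hf hij c
  · intro A hA h
    obtain ⟨i, hi, j, hj, hij⟩ := Finset.one_lt_card.1 hA
    obtain ⟨c, hc⟩ := h (Equiv.swap i j) (fun x hx =>
      Equiv.swap_apply_of_ne_of_ne (fun e => hx (e ▸ hi)) (fun e => hx (e ▸ hj)))
    exact D.no_eigen f hf hij c hc

end Pool.Agent.Results.MP_e01960_al.Counter
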